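import Mathlib
import Pool.Agent.H30.Refine

set_option autoImplicit false

namespace Pool.Agent.Results.MP_b5b962_gt.Overlap

open Pool.Agent.H30.Refine

theorem result : ∃ (C : Set ((Fin 2 → ℝ) × ℝ))
    (v : Fin 7 → ((Fin 2 × Bool) ⊕ Option (Fin 2) → ℝ))
    (D : Set ((Fin 2 × Bool) ⊕ Option (Fin 2) → ℝ))
    (f : ((Fin 2 × Bool) ⊕ Option (Fin 2) → ℝ) → (Fin 2 → ℝ) × ℝ)
    (W : Set (convexHull ℝ (Set.range v) → ℝ))
    (g : (convexHull ℝ (Set.range v) → ℝ) → (C → ℝ)),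
    IsPolytope C ∧ (∀ k, ¬ IsSimplex C k) ∧ AffineIndependent ℝ v ∧
      Refines C (convexHull ℝ (Set.range v)) D f W g ∧
      ∃ a ∈ C.extremePoints ℝ, ∃ b ∈ C.extremePoints ℝ, a ≠ b ∧
        ∃ (s t : Fin 7 → ℝ) (i : Fin 7), (∀ j, 0 ≤ s j) ∧ ∑ j, s j = 1 ∧ (∀ j, 0 ≤ t j) ∧
          ∑ j, t j = 1 ∧ ∑ j, s j • v j ∈ D ∧ ∑ j, t j • v j ∈ D ∧
          f (∑ j, s j • v j) = a ∧ f (∑ j, t j • v j) = b ∧ 0 < s i ∧ 0 < t i := by
  have hd : 0 < 2 := by norm_num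
  let e : Fin 7 ≃ I 2 := (Fintype.equivFinOfCardEq (card_I (d := 2))).symm
  obtain ⟨h1, h2⟩ := std_aff (k := 6) e
  have hr := refines (d := 2) hd
  rw [h2] at hr
  obtain ⟨W, g, h⟩ := hr
  obtain ⟨hx1, hx2, -⟩ := extreme_eq (cc 2) (exposed hd)
  have hs : ∀ z : I 2 → ℝ, ∑ j, z (e j) • (Pi.single (e j) 1 : I 2 → ℝ) = z := by
    intro z
    rw [Equiv.sum_comp e (fun i => z i • (Pi.single i 1 : I 2 → ℝ))]
    funext i
    simp [Finset.sum_apply, Pi.single_apply]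
  refine ⟨_, _, _, _, W, g, ⟨_, Set.finite_range _, rfl⟩, not_simplex hd, h1, h,
    cc 2 (Sum.inl ![true, true]), hx1.ge ⟨_, rfl⟩, cc 2 (Sum.inl ![true, false]), hx1.ge ⟨_, rfl⟩,
    fun hh => ?_, fun j => xx 2 (Sum.inl ![true, true]) (e j),
    fun j => xx 2 (Sum.inl ![true, false]) (e j), e.symm (Sum.inl (0, true)),
    fun j => (xx_mem hd _).1 _, ?_, fun j => (xx_mem hd _).1 _, ?_, ?_, ?_, ?_, ?_, ?_, ?_⟩
  · have := congrFun (Sum.inl_injective (hx2 hh)) 1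
    simp at this
  · rw [Equiv.sum_comp e (xx 2 (Sum.inl ![true, true]))]; exact (xx_mem hd _).2
  · rw [Equiv.sum_comp e (xx 2 (Sum.inl ![true, false]))]; exact (xx_mem hd _).2
  · rw [hs]; exact subset_convexHull ℝ _ ⟨_, rfl⟩
  · rw [hs]; exact subset_convexHull ℝ _ ⟨_, rfl⟩
  · rw [hs]; exact LL_xx hd _
  · rw [hs]; exact LL_xx hd _
  · simp [xx]
  · simp [xx]

end Pool.Agent.Results.MP_b5b962_gt.Overlap
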